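import Pool.Agent.Run7.h587.Even
import Pool.Agent.Run7.h587.TwoNF
import Pool.Agent.Run7.h587.Proj

/-!
Let `K` be a number field with an unramified prime `P` of degree one above `2` (for example
`K = ℚ`), and let `f(x,y) = x⁴ + A x² y² + m² y⁴` with `m ≠ 0`, `A ≠ ± 2m`. We consider the
quartic surface `f(x,y) = c f(z,w)`, `c ≠ 0`. It is nonsingular, and in general not isomorphic to a
diagonal one. If the `P`-adic valuation of `A/m` is `0` or at least `2`, and a thin set of special
values of `c` (which exists only if `m` or `-m` is a square) is avoided, then the surface has no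
rational point over `K` or infinitely many of them.
-/

set_option autoImplicit false

open NumberField IsDedekindDomain MvPolynomial

namespace Pool.Agent.Results.MP_e1960e_nt.EvenBinaryTwist

/-- The quartic form
`X₀⁴ + A X₀² X₁² + m² X₁⁴ - c (X₂⁴ + A X₂² X₃² + m² X₃⁴)`. -/
noncomputable def form {K : Type*} [Field K] (A m c : K) : MvPolynomial (Fin 4) K :=
  X 0 ^ 4 + C A * X 0 ^ 2 * X 1 ^ 2 + C (m ^ 2) * X 1 ^ 4 -
    C c * (X 2 ^ 4 + C A * X 2 ^ 2 * X 3 ^ 2 + C (m ^ 2) * X 3 ^ 4)

/-- The values of `c` which are left out: `m` is a square and `c` or `1/c` is `2 + A/m` times a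
fourth power, or `-m` is a square and `c` or `1/c` is `2 - A/m` times a fourth power. -/
def Special {K : Type*} [Field K] (A m c : K) : Prop :=
  (IsSquare m ∧ ∃ t : K, c * m = (2 * m + A) * t ^ 4 ∨ c * (2 * m + A) = m * t ^ 4) ∨
  (IsSquare (-m) ∧ ∃ t : K, c * m = (2 * m - A) * t ^ 4 ∨ c * (2 * m - A) = m * t ^ 4)

theorem result (K : Type*) [Field K] [NumberField K] (P : HeightOneSpectrum (𝓞 K))
    (h2 : (2 : 𝓞 K) ∈ P.asIdeal) (he : P.asIdeal.ramificationIdx ℤ = 1)
    (hf : P.asIdeal.inertiaDeg ℤ = 1) (A m c : K) (hm : m ≠ 0) (hc : c ≠ 0)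
    (hA : A ^ 2 ≠ 4 * m ^ 2)
    (hv : P.valuation K A = P.valuation K m ∨ P.valuation K A ≤ P.valuation K (4 * m))
    (hs : ¬ Special A m c) :
    ((form A m c).IsHomogeneous 4 ∧ form A m c ≠ 0 ∧
      (∀ x : Fin 4 → AlgebraicClosure K, x ≠ 0 →
        ¬ (MvPolynomial.aeval x (form A m c) = 0 ∧
            ∀ i : Fin 4, MvPolynomial.aeval x (MvPolynomial.pderiv i (form A m c)) = 0))) ∧
    ({p : Projectivization K (Fin 4 → K) | MvPolynomial.eval p.rep (form A m c) = 0} = ∅ ∨
      {p : Projectivization K (Fin 4 → K) |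
        MvPolynomial.eval p.rep (form A m c) = 0}.Infinite) := by
  have hhom : (form A m c).IsHomogeneous 4 := by
    have h4 : ∀ (a : K) (i : Fin 4), (C a * X i ^ 4 : MvPolynomial (Fin 4) K).IsHomogeneous 4 := by
      intro a i
      have := (isHomogeneous_C (Fin 4) a).mul ((isHomogeneous_X K i).pow 4)
      simpa using this
    have h22 : ∀ (a : K) (i j : Fin 4),
        (C a * X i ^ 2 * X j ^ 2 : MvPolynomial (Fin 4) K).IsHomogeneous 4 := by
      intro a i j
      have := ((isHomogeneous_C (Fin 4) a).mul ((isHomogeneous_X K i).pow 2)).mul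
        ((isHomogeneous_X K j).pow 2)
      simpa using this
    have h1 : ∀ i : Fin 4, (X i ^ 4 : MvPolynomial (Fin 4) K).IsHomogeneous 4 := by
      intro i
      simpa using (isHomogeneous_X K i).pow 4
    have hc0 : (C c : MvPolynomial (Fin 4) K).IsHomogeneous 0 := isHomogeneous_C _ _
    have := hc0.mul (((h1 2).add (h22 A 2 3)).add (h4 (m ^ 2) 3))
    rw [zero_add] at this
    exact (((h1 0).add (h22 A 0 1)).add (h4 (m ^ 2) 1)).sub this
  have heval : ∀ y : Fin 4 → K, MvPolynomial.eval y (form A m c) =
      Run7.h587.bq A m (y 0) (y 1) - c * Run7.h587.bq A m (y 2) (y 3) := by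
    intro y
    simp [form, Run7.h587.bq]
  have hne : form A m c ≠ 0 := by
    intro h
    have h1 := congrArg (MvPolynomial.eval ![1, 0, 0, 0]) h
    rw [heval] at h1
    simp [Run7.h587.bq] at h1
  refine ⟨⟨hhom, hne, ?_⟩, ?_⟩
  · -- smoothness
    rintro x hx ⟨-, h⟩
    apply hx
    set i := algebraMap K (AlgebraicClosure K) with hi
    have hinj : Function.Injective i := i.injective
    have e0 := h 0
    have e1 := h 1
    have e2 := h 2
    have e3 := h 3
    simp [form, pderiv_X, Derivation.leibniz, Derivation.leibniz_pow] at e0 e1 e2 e3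
    rw [← hi] at e0 e1 e2 e3
    have hm' : i m ≠ 0 := by
      intro h0; apply hm; apply hinj; rw [h0, map_zero]
    have hc' : i c ≠ 0 := by
      intro h0; apply hc; apply hinj; rw [h0, map_zero]
    have hA' : i A ^ 2 ≠ 4 * i m ^ 2 := by
      intro h0; apply hA; apply hinj
      rw [map_pow, map_mul, map_pow, map_ofNat]; exact h0
    -- the common zeros of the two derivatives of the binary form
    have key : ∀ u v : AlgebraicClosure K, 4 * u ^ 3 + 2 * (i A) * u * v ^ 2 = 0 →
        4 * (i m) ^ 2 * v ^ 3 + 2 * (i A) * u ^ 2 * v = 0 → u = 0 ∧ v = 0 := by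
      intro u v h1 h3
      by_cases hu : u = 0
      · subst hu
        refine ⟨rfl, ?_⟩
        have h4 : 4 * (i m) ^ 2 * v ^ 3 = 0 := by linear_combination h3
        rcases mul_eq_zero.mp h4 with h5 | h5
        · exact absurd h5 (mul_ne_zero (by norm_num) (pow_ne_zero 2 hm'))
        · exact pow_eq_zero_iff (by norm_num) |>.mp h5
      · by_cases hv : v = 0
        · subst hv
          have h4 : (4 : AlgebraicClosure K) * u ^ 3 = 0 := by linear_combination h1
          rcases mul_eq_zero.mp h4 with h5 | h5
          · norm_num at h5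
          · exact absurd (pow_eq_zero_iff (by norm_num) |>.mp h5) hu
        · exfalso
          apply hA'
          have h5 : 2 * u ^ 2 + i A * v ^ 2 = 0 := by
            have : 2 * u * (2 * u ^ 2 + i A * v ^ 2) = 0 := by linear_combination h1
            exact (mul_eq_zero.mp this).resolve_left (mul_ne_zero two_ne_zero hu)
          have h6 : 2 * (i m) ^ 2 * v ^ 2 + i A * u ^ 2 = 0 := by
            have : 2 * v * (2 * (i m) ^ 2 * v ^ 2 + i A * u ^ 2) = 0 := by linear_combination h3
            exact (mul_eq_zero.mp this).resolve_left (mul_ne_zero two_ne_zero hv)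
          have h7 : v ^ 2 * (i A ^ 2 - 4 * i m ^ 2) = 0 := by
            linear_combination i A * h5 - 2 * h6
          have h8 := (mul_eq_zero.mp h7).resolve_left (pow_ne_zero 2 hv)
          linear_combination h8
    obtain ⟨hx0, hx1⟩ := key (x 0) (x 1) (by linear_combination e0) (by linear_combination e1)
    obtain ⟨hx2, hx3⟩ := key (x 2) (x 3)
      (by
        have : i c * (4 * x 2 ^ 3 + 2 * (i A) * x 2 * x 3 ^ 2) = 0 := by
          first
            | linear_combination e2
            | (rcases e2 with e2 | e2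
               · exact absurd e2 hc
               · linear_combination i c * e2)
        exact (mul_eq_zero.mp this).resolve_left hc')
      (by
        have : i c * (4 * (i m) ^ 2 * x 3 ^ 3 + 2 * (i A) * x 2 ^ 2 * x 3) = 0 := by
          first
            | linear_combination e3
            | (rcases e3 with e3 | e3
               · exact absurd e3 hc
               · linear_combination i c * e3)
        exact (mul_eq_zero.mp this).resolve_left hc')
    ext j
    fin_cases j
    · exact hx0
    · exact hx1
    · exact hx2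
    · exact hx3
  · by_cases hE : {p : Projectivization K (Fin 4 → K) |
        MvPolynomial.eval p.rep (form A m c) = 0} = ∅
    · exact Or.inl hE
    right
    have hT := Run7.h587.twoLike_of_prime h2 he hf
    obtain ⟨y, hy, hy0⟩ := Run7.h587.exists_vec hE
    rw [heval] at hy0
    have hpm : 0 < Run7.h587.pabv P m := (Run7.h587.pabv P).pos hm
    have ha : Run7.h587.pabv P (A / m) = 1 ∨
        Run7.h587.pabv P (A / m) ≤ Run7.h587.pabv P 2 ^ 2 := by
      rcases hv with h1 | h1
      · left
        rw [map_div₀, Run7.h587.pabv_eq_iff.mpr h1, div_self hpm.ne']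
      · right
        have h3 : Run7.h587.pabv P A ≤ Run7.h587.pabv P (4 * m) := by
          by_contra hcon
          push Not at hcon
          rw [Run7.h587.pabv_lt_iff] at hcon
          exact absurd h1 (not_le.mpr hcon)
        have h4 : (4 : K) = 2 * 2 := by norm_num
        rw [map_mul, h4, map_mul] at h3
        rw [map_div₀, div_le_iff₀ hpm]
        calc _ ≤ _ := h3
          _ = _ := by ring
    have hsp : ¬ Run7.h587.SpecE A m c := by
      rintro (⟨s, t, h1, h3⟩ | ⟨s, t, h1, h3⟩)
      · exact hs (Or.inl ⟨⟨s, by rw [← h1]; ring⟩, t, h3⟩)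
      · exact hs (Or.inr ⟨⟨s, by rw [← h1]; ring⟩, t, h3⟩)
    obtain ⟨j, t, ht, hinf⟩ := Run7.h587.infE_all hT hm hc ha hsp
      (x := y 0) (y := y 1) (z := y 2) (w := y 3)
      (by
        rintro ⟨h0, h1, h2, h3⟩
        apply hy
        ext j
        fin_cases j
        · exact h0
        · exact h1
        · exact h2
        · exact h3)
      (by linear_combination hy0)
    refine Run7.h587.pts_infinite hhom hinf j ht ?_
    rintro y ⟨h1, h3⟩
    refine ⟨h1, ?_⟩
    rw [heval]
    linear_combination h3

end Pool.Agent.Results.MP_e1960e_nt.EvenBinaryTwist
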