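import Pool.Agent.Run7.h587.CNF
import Pool.Agent.Run7.h587.CLocal
import Pool.Agent.Run7.h587.Proj

/-!
Let `K` be a number field with an unramified prime `P` of degree one above `2` (for example
`K = ℚ`). We consider the diagonal quartic surfaces `x⁴ - 2 g y⁴ = c (z⁴ + g² w⁴)` over `K`, for
which the product of the coefficients is `- 2 g` up to squares, hence in general not a square. If
`P` ramifies in `K(√g)` and `- 2 g` is not a fourth power, then one rational point with `x y ≠ 0`
and `(z, w) ≠ (0, 0)` implies the existence of infinitely many rational points. For `g = -1` and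
`c ≡ 3 mod 16` such a point is automatic, so the surface `x⁴ + 2 y⁴ = c (z⁴ + w⁴)` has then no
rational point or infinitely many.
-/

set_option autoImplicit false

open NumberField IsDedekindDomain MvPolynomial

namespace Pool.Agent.Results.MP_e1960e_nt.NonsquareProductDiagonal

/-- The quartic form `X₀⁴ - 2 g X₁⁴ - c (X₂⁴ + g² X₃⁴)`. -/
noncomputable def form {K : Type*} [Field K] (g c : K) : MvPolynomial (Fin 4) K :=
  X 0 ^ 4 - C (2 * g) * X 1 ^ 4 - C c * (X 2 ^ 4 + C (g ^ 2) * X 3 ^ 4)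

theorem result (K : Type*) [Field K] [NumberField K] (P : HeightOneSpectrum (𝓞 K))
    (h2 : (2 : 𝓞 K) ∈ P.asIdeal) (he : P.asIdeal.ramificationIdx ℤ = 1)
    (hf : P.asIdeal.inertiaDeg ℤ = 1) :
    (∀ g c : K, g ≠ 0 → c ≠ 0 →
      ((form g c).IsHomogeneous 4 ∧ form g c ≠ 0 ∧
        (∀ x : Fin 4 → AlgebraicClosure K, x ≠ 0 →
          ¬ (MvPolynomial.aeval x (form g c) = 0 ∧
              ∀ i : Fin 4, MvPolynomial.aeval x (MvPolynomial.pderiv i (form g c)) = 0)))) ∧
    (∀ g c : K, g ≠ 0 → c ≠ 0 →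
      (∀ x : K, P.valuation K 4 < P.valuation K (g * x ^ 2 - 1)) →
      (∀ m : K, m ^ 4 ≠ -(2 * g)) →
      (∃ p : Projectivization K (Fin 4 → K), MvPolynomial.eval p.rep (form g c) = 0 ∧
        p.rep 0 ≠ 0 ∧ p.rep 1 ≠ 0 ∧ (p.rep 2 ≠ 0 ∨ p.rep 3 ≠ 0)) →
      {p : Projectivization K (Fin 4 → K) | MvPolynomial.eval p.rep (form g c) = 0}.Infinite) ∧
    (∀ c : K, P.valuation K (c - 3) ≤ P.valuation K 16 →
      {p : Projectivization K (Fin 4 → K) | MvPolynomial.eval p.rep (form (-1) c) = 0} = ∅ ∨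
      {p : Projectivization K (Fin 4 → K) |
        MvPolynomial.eval p.rep (form (-1) c) = 0}.Infinite) := by
  have hsm : ∀ g c : K, g ≠ 0 → c ≠ 0 → Run7.h587.SmoothQuartic (form g c) := by
    intro g c hg hc
    have hform : form g c = Run7.h587.diagQ 1 (-(2 * g)) (-c) (-(c * g ^ 2)) := by
      unfold form Run7.h587.diagQ
      simp only [map_one, map_neg, map_mul, map_pow]
      ring
    rw [hform]
    exact Run7.h587.diagQ_smooth one_ne_zero (neg_ne_zero.mpr (mul_ne_zero two_ne_zero hg))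
      (neg_ne_zero.mpr hc) (neg_ne_zero.mpr (mul_ne_zero hc (pow_ne_zero 2 hg)))
  have heval : ∀ (g c : K) (y : Fin 4 → K), MvPolynomial.eval y (form g c) =
      y 0 ^ 4 - 2 * g * y 1 ^ 4 - c * (y 2 ^ 4 + g ^ 2 * y 3 ^ 4) := by
    intro g c y
    simp [form]
  have main : ∀ g c : K, g ≠ 0 → c ≠ 0 →
      (∀ x : K, P.valuation K 4 < P.valuation K (g * x ^ 2 - 1)) →
      (∀ m : K, m ^ 4 ≠ -(2 * g)) →
      (∃ y : Fin 4 → K, MvPolynomial.eval y (form g c) = 0 ∧
        y 0 ≠ 0 ∧ y 1 ≠ 0 ∧ (y 2 ≠ 0 ∨ y 3 ≠ 0)) →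
      {p : Projectivization K (Fin 4 → K) | MvPolynomial.eval p.rep (form g c) = 0}.Infinite := by
    rintro g c hg hc ram h4 ⟨y, hy, h0, h1, h23⟩
    rw [heval] at hy
    have hinf := Run7.h587.cfam_nf h2 he hf hg hc ram h4 h0 h1 h23 (by linear_combination hy)
    refine Run7.h587.pts_infinite (hsm g c hg hc).1 hinf 0 h0 ?_
    rintro v ⟨hv1, hv2⟩
    refine ⟨hv1, ?_⟩
    rw [heval]
    linear_combination hv2
  refine ⟨hsm, ?_, ?_⟩
  · rintro g c hg hc ram h4 ⟨p, hp, h⟩
    exact main g c hg hc ram h4 ⟨p.rep, hp, h⟩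
  · intro c hc
    have hT := Run7.h587.twoLike_of_prime h2 he hf
    have hle : ∀ {a b : K}, P.valuation K a ≤ P.valuation K b →
        Run7.h587.pabv P a ≤ Run7.h587.pabv P b := by
      intro a b h
      by_contra hcon
      push Not at hcon
      rw [Run7.h587.pabv_lt_iff] at hcon
      exact absurd h (not_le.mpr hcon)
    have hc' : Run7.h587.pabv P (c - 3) ≤ Run7.h587.pabv P 2 ^ 4 := by
      have h1 := hle hc
      have e : (16 : K) = 2 ^ 4 := by norm_num
      rwa [e, map_pow] at h1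
    have hc0 : c ≠ 0 := by
      rintro rfl
      have h1 := hT.three_unit hc'
      rw [map_zero] at h1
      exact zero_ne_one h1
    by_cases hE : {p : Projectivization K (Fin 4 → K) |
        MvPolynomial.eval p.rep (form (-1) c) = 0} = ∅
    · exact Or.inl hE
    right
    obtain ⟨y, hy, hy0⟩ := Run7.h587.exists_vec hE
    have hy1 := hy0
    rw [heval] at hy1
    obtain ⟨h0, h1, h23⟩ := hT.open_of_three hc' (x := y 0) (y := y 1) (z := y 2) (w := y 3)
      (by
        rintro ⟨h0, h1, h2, h3⟩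
        apply hy
        ext j
        fin_cases j
        · exact h0
        · exact h1
        · exact h2
        · exact h3)
      (by linear_combination hy1)
    refine main (-1) c (by norm_num) hc0 ?_ ?_ ⟨y, hy0, h0, h1, h23⟩
    · intro x
      rw [← Run7.h587.pabv_lt_iff]
      have e4 : (4 : K) = 2 ^ 2 := by norm_num
      have e : (-1 : K) * x ^ 2 - 1 = -(x ^ 2 + 1) := by ring
      rw [e4, map_pow, e, (Run7.h587.pabv P).map_neg]
      have p2 : 0 < Run7.h587.pabv P 2 := (Run7.h587.pabv P).pos hT.pos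
      have hlt := hT.lt
      have h41 : Run7.h587.pabv P 2 ^ 2 < 1 := pow_lt_one₀ p2.le hlt two_ne_zero
      rcases lt_trichotomy (Run7.h587.pabv P x) 1 with hx | hx | hx
      · rw [add_comm, Run7.h587.na_add_eq hT.na, map_one]
        · exact h41
        · rw [map_one, map_pow]
          exact pow_lt_one₀ ((Run7.h587.pabv P).nonneg _) hx two_ne_zero
      · have h5 := hT.sq_unit hx
        have e5 : x ^ 2 + 1 = 2 + (x ^ 2 - 1) := by ring
        have h7 : Run7.h587.pabv P 2 ^ 3 < Run7.h587.pabv P 2 := by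
          calc Run7.h587.pabv P 2 ^ 3 = Run7.h587.pabv P 2 ^ 2 * Run7.h587.pabv P 2 := by ring
            _ < 1 * Run7.h587.pabv P 2 := mul_lt_mul_of_pos_right h41 p2
            _ = Run7.h587.pabv P 2 := one_mul _
        rw [e5, Run7.h587.na_add_eq hT.na (lt_of_le_of_lt h5 h7)]
        calc Run7.h587.pabv P 2 ^ 2 = Run7.h587.pabv P 2 * Run7.h587.pabv P 2 := sq _
          _ < 1 * Run7.h587.pabv P 2 := mul_lt_mul_of_pos_right hlt p2
          _ = Run7.h587.pabv P 2 := one_mul _
      · have h5 : 1 < Run7.h587.pabv P (x ^ 2) := by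
          rw [map_pow]; exact one_lt_pow₀ hx two_ne_zero
        rw [Run7.h587.na_add_eq hT.na (by rwa [map_one])]
        linarith
    · intro m hm
      apply hT.four_ne_two m
      rw [← map_pow, hm]
      norm_num

end Pool.Agent.Results.MP_e1960e_nt.NonsquareProductDiagonal
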