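import Pool.Agent.Run7.h587.DegOdd
import Pool.Agent.Run7.h587.FamB

/-!
Diagonal quartic surfaces `a₀x₀⁴ + a₁x₁⁴ + a₂x₂⁴ + a₃x₃⁴ = 0` over a number field `K` whose product
of coefficients is a square: one rational point with nonzero coordinates gives infinitely many, as
soon as `K` has a prime above `2` with odd residue degree (for instance if `K` has odd degree), or
the valuations of the coefficients at some prime above `2` are not all congruent modulo `4`.
-/

set_option autoImplicit false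

open NumberField IsDedekindDomain MvPolynomial

namespace Pool.Agent.Results.MP_e1960e_nt.SquareDiagonalOpenPoint

/-- The diagonal quartic form with coefficients `a₀, a₁, a₂, a₃`. -/
noncomputable def form {K : Type*} [Field K] (a : Fin 4 → K) : MvPolynomial (Fin 4) K :=
  ∑ i, C (a i) * X i ^ 4

/-- The `2`-adic condition: `K` has odd degree, or there is a prime `P` of `K` above `2` whose
residue degree is odd or at which the valuations of two of the coefficients are incongruent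
modulo `4`. -/
def TwoAdic (K : Type*) [Field K] [NumberField K] (a : Fin 4 → K) : Prop :=
  Odd (Module.finrank ℚ K) ∨
  ∃ P : HeightOneSpectrum (𝓞 K), (2 : 𝓞 K) ∈ P.asIdeal ∧
    (Odd (P.asIdeal.inertiaDeg ℤ) ∨
      ∃ i j : Fin 4, ∀ x : K, P.valuation K (a i) * P.valuation K x ^ 4 ≠ P.valuation K (a j))

theorem result (K : Type*) [Field K] [NumberField K] (a : Fin 4 → K) (ha : ∀ i, a i ≠ 0)
    (hsq : IsSquare (a 0 * a 1 * a 2 * a 3)) (h2 : TwoAdic K a) :
    ((form a).IsHomogeneous 4 ∧ form a ≠ 0 ∧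
      (∀ x : Fin 4 → AlgebraicClosure K, x ≠ 0 →
        ¬ (MvPolynomial.aeval x (form a) = 0 ∧
            ∀ i : Fin 4, MvPolynomial.aeval x (MvPolynomial.pderiv i (form a)) = 0))) ∧
    ((∃ p : Projectivization K (Fin 4 → K),
        MvPolynomial.eval p.rep (form a) = 0 ∧ ∀ i, p.rep i ≠ 0) →
      {p : Projectivization K (Fin 4 → K) | MvPolynomial.eval p.rep (form a) = 0}.Infinite) := by
  have hform : form a = Run7.h587.diagQ (a 0) (a 1) (a 2) (a 3) := by
    unfold form Run7.h587.diagQ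
    rw [Fin.sum_univ_four]
  have hsm : Run7.h587.SmoothQuartic (form a) := by
    rw [hform]
    exact Run7.h587.diagQ_smooth (ha 0) (ha 1) (ha 2) (ha 3)
  refine ⟨hsm, ?_⟩
  rintro ⟨p, hp0, hp⟩
  rw [hform] at hp0 ⊢
  rw [Run7.h587.eval_diagQ] at hp0
  obtain ⟨s, hs⟩ := hsq
  -- the prime
  have hP : ∃ P : HeightOneSpectrum (𝓞 K), (2 : 𝓞 K) ∈ P.asIdeal ∧
      ∀ Δ : K, ¬ Run7.h587.Exc (Run7.h587.pabv P) (a 0 * p.rep 0 ^ 4) (a 1 * p.rep 1 ^ 4)
        (a 2 * p.rep 2 ^ 4) (a 3 * p.rep 3 ^ 4) Δ := by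
    have hodd : ∀ P : HeightOneSpectrum (𝓞 K), (2 : 𝓞 K) ∈ P.asIdeal →
        Odd (P.asIdeal.inertiaDeg ℤ) →
        ∀ Δ : K, ¬ Run7.h587.Exc (Run7.h587.pabv P) (a 0 * p.rep 0 ^ 4) (a 1 * p.rep 1 ^ 4)
        (a 2 * p.rep 2 ^ 4) (a 3 * p.rep 3 ^ 4) Δ := by
      rintro P h2P hf Δ ⟨⟨ω, hω⟩, -, -, -, -, -⟩
      exact Run7.h587.no_omega h2P hf hω
    rcases h2 with hd | ⟨P, h2P, hf | ⟨i, j, hij⟩⟩
    · obtain ⟨P, h2P, hf⟩ := Run7.h587.inertia_of_odd_degree hd
      exact ⟨P, h2P, hodd P h2P hf⟩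
    · exact ⟨P, h2P, hodd P h2P hf⟩
    · refine ⟨P, h2P, ?_⟩
      rintro Δ ⟨-, e01, e12, e23, -, -⟩
      have hall : ∀ k : Fin 4, Run7.h587.pabv P (a k * p.rep k ^ 4) =
          Run7.h587.pabv P (a 0 * p.rep 0 ^ 4) := by
        intro k
        fin_cases k
        · rfl
        · exact e01.symm
        · exact (e01.trans e12).symm
        · exact ((e01.trans e12).trans e23).symm
      have h1 := (hall i).trans (hall j).symm
      apply hij (p.rep i / p.rep j)
      have h3 : Run7.h587.pabv P (a i * (p.rep i / p.rep j) ^ 4) = Run7.h587.pabv P (a j) := by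
        have e : a i * (p.rep i / p.rep j) ^ 4 = a i * p.rep i ^ 4 / p.rep j ^ 4 := by
          field_simp
        have hj : (Run7.h587.pabv P) (p.rep j ^ 4) ≠ 0 := by
          exact (Run7.h587.pabv P).ne_zero (pow_ne_zero 4 (hp j))
        rw [e, map_div₀, h1, map_mul]
        field_simp
      rw [Run7.h587.pabv_eq_iff, map_mul, map_pow] at h3
      exact h3
  obtain ⟨P, h2P, hE⟩ := hP
  have hnz : ∀ i, a i * p.rep i ^ 4 ≠ 0 := fun i => mul_ne_zero (ha i) (pow_ne_zero 4 (hp i))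
  rcases Run7.h587.diag_full (Run7.h587.pabv_na P) (Run7.h587.pabv_two h2P) (hnz 0) (hnz 1)
    (hnz 2) (hnz 3) hp0 (Δ := s * (p.rep 0 * p.rep 1 * p.rep 2 * p.rep 3) ^ 2)
    (by linear_combination (-(p.rep 0 * p.rep 1 * p.rep 2 * p.rep 3) ^ 4) * hs) with hI | hI
  · refine Run7.h587.pts_infinite (Run7.h587.diagQ_homog _ _ _ _) hI 0 (hp 0) ?_
    rintro y ⟨h1, h3⟩
    refine ⟨h1, ?_⟩
    rw [Run7.h587.eval_diagQ]
    exact h3
  · exact absurd hI (hE _)

end Pool.Agent.Results.MP_e1960e_nt.SquareDiagonalOpenPoint
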