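import Pool.Agent.Run7.h587.FamB

/-!
For a number field `K` and `c, m ∈ K*` we consider the quartic surface
`x⁴ + m² y⁴ = c (z⁴ + m² w⁴)`.  It is nonsingular.  If `[K : ℚ]` is not divisible by `4`, or, more
generally, if the mild `2`-adic condition `TwoAdic` holds, then it has no rational point over `K` or
infinitely many of them.  So none of these surfaces answers the question of the problem.
-/

set_option autoImplicit false

open NumberField IsDedekindDomain MvPolynomial

namespace Pool.Agent.Results.MP_e1960e_nt.TwistedEulerDichotomy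

/-- The quartic form `X₀⁴ + m² X₁⁴ - c (X₂⁴ + m² X₃⁴)`. -/
noncomputable def form {K : Type*} [Field K] (c m : K) : MvPolynomial (Fin 4) K :=
  X 0 ^ 4 + C (m ^ 2) * X 1 ^ 4 - C c * (X 2 ^ 4 + C (m ^ 2) * X 3 ^ 4)

/-- The `2`-adic condition: the degree of `K` is not divisible by `4`, or there is a prime `P` of
`K` above `2` whose ramification index is odd, or whose residue degree is odd, or for which the
valuation of `c` is not divisible by `4`, or for which the valuation of `m` is odd. (A value of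
`P.valuation K` at a nonzero element is a power of one generator, with exponent minus the
normalised exponential valuation.) -/
def TwoAdic (K : Type*) [Field K] [NumberField K] (c m : K) : Prop :=
  ¬ 4 ∣ Module.finrank ℚ K ∨
  ∃ P : HeightOneSpectrum (𝓞 K), (2 : 𝓞 K) ∈ P.asIdeal ∧
    (Odd (P.asIdeal.ramificationIdx ℤ) ∨ Odd (P.asIdeal.inertiaDeg ℤ) ∨
      (∀ x : K, P.valuation K x ^ 4 ≠ P.valuation K c) ∨
      (∀ x : K, P.valuation K x ^ 2 ≠ P.valuation K m))

theorem result (K : Type*) [Field K] [NumberField K] (c m : K) (hc : c ≠ 0) (hm : m ≠ 0)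
    (h2 : TwoAdic K c m) :
    ((form c m).IsHomogeneous 4 ∧ form c m ≠ 0 ∧
      (∀ x : Fin 4 → AlgebraicClosure K, x ≠ 0 →
        ¬ (MvPolynomial.aeval x (form c m) = 0 ∧
            ∀ i : Fin 4, MvPolynomial.aeval x (MvPolynomial.pderiv i (form c m)) = 0))) ∧
    ({p : Projectivization K (Fin 4 → K) | MvPolynomial.eval p.rep (form c m) = 0} = ∅ ∨
      {p : Projectivization K (Fin 4 → K) | MvPolynomial.eval p.rep (form c m) = 0}.Infinite) := by
  have hform : form c m = Run7.h587.diagQ 1 (m ^ 2) (-c) (-(c * m ^ 2)) := by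
    unfold form Run7.h587.diagQ
    simp only [map_one, map_neg, map_mul, map_pow]
    ring
  have hsm : Run7.h587.SmoothQuartic (form c m) := by
    rw [hform]
    exact Run7.h587.diagQ_smooth one_ne_zero (pow_ne_zero 2 hm) (neg_ne_zero.mpr hc)
      (neg_ne_zero.mpr (mul_ne_zero hc (pow_ne_zero 2 hm)))
  refine ⟨hsm, ?_⟩
  by_cases hE : {p : Projectivization K (Fin 4 → K) | MvPolynomial.eval p.rep (form c m) = 0} = ∅
  · exact Or.inl hE
  right
  -- the prime
  have hP : ∃ P : HeightOneSpectrum (𝓞 K), (2 : 𝓞 K) ∈ P.asIdeal ∧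
      Run7.h587.CondF (Run7.h587.pabv P) c m := by
    have hodd : ∀ P : HeightOneSpectrum (𝓞 K), (2 : 𝓞 K) ∈ P.asIdeal →
        (Odd (P.asIdeal.ramificationIdx ℤ) ∨ Odd (P.asIdeal.inertiaDeg ℤ)) →
        Run7.h587.CondF (Run7.h587.pabv P) c m := by
      rintro P h2P (he | hf) ⟨⟨x, hx⟩, ⟨ω, hω⟩, -, -⟩
      · exact Run7.h587.no_sqrt_two h2P he hx
      · exact Run7.h587.no_omega h2P hf hω
    rcases h2 with h4 | ⟨P, h2P, he | hf | hv | hv⟩
    · obtain ⟨P, h2P, hef⟩ := Run7.h587.oddAtTwo_of_degree h4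
      exact ⟨P, h2P, hodd P h2P hef⟩
    · exact ⟨P, h2P, hodd P h2P (Or.inl he)⟩
    · exact ⟨P, h2P, hodd P h2P (Or.inr hf)⟩
    · refine ⟨P, h2P, ?_⟩
      rintro ⟨-, -, ⟨x, hx⟩, -⟩
      rw [← map_pow, Run7.h587.pabv_eq_iff, map_pow] at hx
      exact hv x hx
    · refine ⟨P, h2P, ?_⟩
      rintro ⟨-, -, -, ⟨x, hx⟩⟩
      rw [← map_pow, Run7.h587.pabv_eq_iff, map_pow] at hx
      exact hv x hx
  obtain ⟨P, h2P, hC⟩ := hP
  obtain ⟨y, hy, hy0⟩ := Run7.h587.exists_vec hE
  have heval : ∀ y : Fin 4 → K, MvPolynomial.eval y (form c m) =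
      y 0 ^ 4 + m ^ 2 * y 1 ^ 4 - c * (y 2 ^ 4 + m ^ 2 * y 3 ^ 4) := by
    intro y
    simp [form]
  rw [heval] at hy0
  obtain ⟨i, t, ht, hinf⟩ := Run7.h587.infS_all (Run7.h587.pabv_na P) (Run7.h587.pabv_two h2P)
    hc hm hC (x := y 0) (y := y 1) (z := y 2) (w := y 3)
    (by
      rintro ⟨h0, h1, h2, h3⟩
      apply hy
      ext j
      fin_cases j
      · exact h0
      · exact h1
      · exact h2
      · exact h3)
    (by linear_combination hy0)
  refine Run7.h587.pts_infinite hsm.1 hinf i ht ?_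
  rintro y ⟨h1, h3⟩
  refine ⟨h1, ?_⟩
  rw [heval]
  linear_combination h3

end Pool.Agent.Results.MP_e1960e_nt.TwistedEulerDichotomy
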